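import Pool.Agent.Helper27.RV.St

/-!
MODULE SPT of project RV (helper27): transport of `SP`.
-/

set_option autoImplicit false

open Cardinal Ordinal Set

universe u

namespace Pool.Agent.Helper78.RV

open Pool.Agent.Helper27.RV

theorem pSPT : StSPT.{u} := by
  intro L L' D D' hD hL hDD hSP
  obtain ⟨i⟩ := hL
  obtain ⟨e⟩ := Cardinal.eq.mp hDD
  obtain ⟨V', hV'⟩ := hSP
  refine ⟨fun d l n => e.symm (V' (e d) (i l) n), fun v => ?_⟩
  rcases isEmpty_or_nonempty L with hLe | hLn
  · obtain ⟨d⟩ := hD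
    exact ⟨d, fun l => (hLe.false l).elim⟩
  · obtain ⟨d', hd'⟩ := hV' (fun l' n => e (v (Function.invFun i l') n))
    refine ⟨e.symm d', fun l n => ?_⟩
    obtain ⟨n', hn'⟩ := hd' (i l) n
    refine ⟨n', ?_⟩
    have h1 : Function.invFun i (i l) = l := Function.leftInverse_invFun i.injective l
    simp only [h1] at hn'
    simp only [Equiv.apply_symm_apply]
    rw [← hn', Equiv.symm_apply_apply]

end Pool.Agent.Helper78.RV
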